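import Mathlib

namespace Pool.Agent.Results.MP_9085a3_al.OneInvolution

/-- every subgroup is the fixed-point subgroup of some automorphism -/
def PropF (G : Type) [Group G] : Prop :=
  ∀ H : Subgroup G, ∃ α : MulAut G, ∀ g, g ∈ H ↔ α g = g

lemma exists_ker {G : Type} [CommGroup G] [Finite G] (H : Subgroup G) :
    ∃ φ : G →* G, ∀ g, φ g = 1 ↔ g ∈ H := by
  haveI : NeZero (Monoid.exponent G) := ⟨Monoid.exponent_ne_zero_of_finite⟩
  haveI : NeZero (Monoid.exponent (G ⧸ H)) := ⟨Monoid.exponent_ne_zero_of_finite⟩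
  obtain ⟨e1⟩ := CommGroup.monoidHom_mulEquiv_of_hasEnoughRootsOfUnity (G ⧸ H) ℂ
  obtain ⟨e2⟩ := CommGroup.monoidHom_mulEquiv_of_hasEnoughRootsOfUnity G ℂ
  let j : ((G ⧸ H) →* ℂˣ) →* (G →* ℂˣ) :=
    { toFun := fun χ => χ.comp (QuotientGroup.mk' H)
      map_one' := by ext; simp
      map_mul' := fun a b => by ext; simp }
  have hj : ∀ χ, j χ = 1 → χ = 1 := by
    intro χ h
    refine MonoidHom.ext fun q => ?_
    obtain ⟨g, rfl⟩ := QuotientGroup.mk'_surjective H q
    exact DFunLike.congr_fun h g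
  refine ⟨e2.toMonoidHom.comp (j.comp (e1.symm.toMonoidHom.comp (QuotientGroup.mk' H))),
    fun g => ⟨fun h => ?_, fun h => ?_⟩⟩
  · have h1 : j (e1.symm (QuotientGroup.mk' H g)) = 1 := e2.map_eq_one_iff.1 h
    exact (QuotientGroup.eq_one_iff g).1 (e1.symm.map_eq_one_iff.1 (hj _ h1))
  · have : QuotientGroup.mk' H g = 1 := (QuotientGroup.eq_one_iff g).2 h
    simp only [MonoidHom.comp_apply, this, map_one]

lemma idem {R : Type} [Monoid R] [Finite R] (x : R) : ∃ m, x ^ (m + 1) * x ^ (m + 1) = x ^ (m + 1) := by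
  have key : ∀ a d : ℕ, x ^ a = x ^ (a + (d + 1)) →
      ∃ m, x ^ (m + 1) * x ^ (m + 1) = x ^ (m + 1) := by
    intro a d h
    have h1 : ∀ k, x ^ (a + k * (d + 1)) = x ^ a := by
      intro k
      induction k with
      | zero => simp
      | succ k ih =>
        rw [show a + (k + 1) * (d + 1) = a + k * (d + 1) + (d + 1) by ring, pow_add, ih, ← pow_add, ← h]
    refine ⟨a + (a * d + d), ?_⟩
    rw [← pow_add, show a + (a * d + d) + 1 + (a + (a * d + d) + 1) =
      a + (a + 1) * (d + 1) + (a * d + d + 1) by ring, pow_add, h1, ← pow_add]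
    congr 1
  obtain ⟨a, b, hab, h⟩ := Finite.exists_ne_map_eq_of_infinite (fun n : ℕ => x ^ n)
  rcases lt_or_gt_of_ne hab with h' | h'
  · exact key a (b - a - 1) (by rw [show a + (b - a - 1 + 1) = b by omega]; exact h)
  · exact key b (a - b - 1) (by rw [show b + (a - b - 1 + 1) = a by omega]; exact h.symm)

theorem joined :
    (∀ (G : Type) [CommGroup G] [Finite G], Odd (Nat.card G) → PropF G) ∧
    (∀ (G : Type) [Group G], (∃! t : G, t ≠ 1 ∧ t * t = 1) → ¬ PropF G) := by
  constructor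
  · intro G _ _ hodd H
    obtain ⟨φ, hφ⟩ := exists_ker H
    haveI : Finite (Monoid.End G) := DFunLike.finite _
    let ψ : Monoid.End G := φ
    obtain ⟨m, hm⟩ := idem ψ
    let f : G →* G := (ψ ^ (m + 1) : Monoid.End G)
    have ff : ∀ x, f (f x) = f x := fun x => DFunLike.congr_fun hm x
    have f1 : ∀ x, f x = (ψ ^ m : Monoid.End G) (φ x) := fun x =>
      DFunLike.congr_fun (pow_succ ψ m) x
    have fc : ∀ x, f (φ x) = φ (f x) := fun x =>
      DFunLike.congr_fun ((pow_succ ψ (m + 1)).symm.trans (pow_succ' ψ (m + 1))) x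
    have sq1 : ∀ y : G, y * y = 1 → y = 1 := by
      intro y hy
      obtain ⟨k, hk⟩ := hodd
      have := pow_card_eq_one' (x := y)
      rwa [hk, pow_succ, pow_mul, sq, hy, one_pow, one_mul] at this
    let α : G →* G := MonoidHom.id G * (f * φ * (f.comp φ)⁻¹)
    have hα : ∀ x, α x = x * (f x * φ x * (f (φ x))⁻¹) := fun x => rfl
    have hinj : Function.Injective α := by
      rw [injective_iff_map_eq_one]
      intro x hx
      rw [hα] at hx
      have h1 := congrArg f hx
      simp only [map_mul, map_inv, map_one, ff, mul_inv_cancel_right] at h1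
      have h2 := sq1 _ h1
      rw [fc, h2] at hx
      simp only [map_one, inv_one, mul_one, one_mul] at hx
      have h3 : φ x = x⁻¹ := eq_inv_of_mul_eq_one_right hx
      have h4 : ∀ k : ℕ, (ψ ^ k : Monoid.End G) x = x ∨ (ψ ^ k : Monoid.End G) x = x⁻¹ := by
        intro k
        induction k with
        | zero => exact Or.inl rfl
        | succ k ih =>
          have e : (ψ ^ (k + 1) : Monoid.End G) x = φ ((ψ ^ k : Monoid.End G) x) :=
            DFunLike.congr_fun (pow_succ' ψ k) x
          rcases ih with ih | ih <;> rw [e, ih]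
          · exact Or.inr h3
          · left; rw [map_inv, h3, inv_inv]
      rcases h4 (m + 1) with h5 | h5
      · exact h5.symm.trans h2
      · exact inv_eq_one.1 (h5.symm.trans h2)
    refine ⟨MulEquiv.ofBijective α ⟨hinj, Finite.injective_iff_surjective.1 hinj⟩, fun g => ?_⟩
    change g ∈ H ↔ α g = g
    rw [← hφ, hα, mul_eq_left]
    constructor
    · intro h
      rw [f1, h]; simp
    · intro h
      have h1 := congrArg f h
      simp only [map_mul, map_inv, map_one, ff, mul_inv_cancel_right] at h1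
      rw [fc, h1] at h
      simpa using h
  · rintro G _ ⟨t, ⟨h1, h2⟩, h3⟩ hF
    obtain ⟨α, hα⟩ := hF ⊥
    refine h1 (Subgroup.mem_bot.1 ((hα t).2 (h3 _ ⟨?_, ?_⟩)))
    · exact fun h => h1 (α.map_eq_one_iff.1 h)
    · rw [← map_mul, h2, map_one]

theorem result (G : Type) [Group G] (h : ∃! t : G, t ≠ 1 ∧ t * t = 1) : ¬ PropF G :=
  joined.2 G h

end Pool.Agent.Results.MP_9085a3_al.OneInvolution
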